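import Pool.Agent.H520Z.Sel.SBridge
import Pool.Agent.H520Z.Sel.Exotic

set_option autoImplicit false

namespace Pool.Agent.Results.MP_0bb3d8_nt.AAllLargeDegrees

open Pool.Agent.H520Z.Sel

/-- Every sufficiently large real number is the degree of an element of the Selberg class. -/
theorem result : ∃ d₀ : ℝ, ∀ d : ℝ, d₀ ≤ d → ∃ (a : ℕ → ℂ) (F : ℂ → ℂ), Selberg a F d := by
  obtain ⟨l0, h⟩ := exists_exotic
  refine ⟨2 * l0, fun d hd => ?_⟩
  obtain ⟨Q, c, F, hF, -⟩ := h (d / 2) (by linarith)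
  have hS := hF.selberg
  rw [mul_div_cancel₀ _ (two_ne_zero)] at hS
  exact ⟨_, F, hS⟩

end Pool.Agent.Results.MP_0bb3d8_nt.AAllLargeDegrees
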